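import Pool.Agent.Helper47.RFn.Alg

/-! # Packet RFn-NF (MP_c98eff_gt): normal form of complex planes. -/

namespace Pool.Agent.Helper97.RFn

open Finset Pool.Agent.Helper47.RFn

variable {n : ℕ}

/-! ### real vectors -/

/-- the dot product -/
def rd (a b : Fin n → ℝ) : ℝ := ∑ k, a k * b k

theorem rd_comm (a b : Fin n → ℝ) : rd a b = rd b a := by
  unfold rd
  exact Finset.sum_congr rfl fun k _ => mul_comm _ _

theorem rd_smul_left (c : ℝ) (a b : Fin n → ℝ) : rd (c • a) b = c * rd a b := by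
  unfold rd
  rw [Finset.mul_sum]
  exact Finset.sum_congr rfl fun k _ => by simp [mul_assoc]

theorem rd_smul_right (c : ℝ) (a b : Fin n → ℝ) : rd a (c • b) = c * rd a b := by
  rw [rd_comm, rd_smul_left, rd_comm]

theorem rd_self_nonneg (a : Fin n → ℝ) : 0 ≤ rd a a :=
  Finset.sum_nonneg fun k _ => mul_self_nonneg _

theorem rd_self_eq_zero {a : Fin n → ℝ} (h : rd a a = 0) : a = 0 := by
  unfold rd at h
  rw [Finset.sum_eq_zero_iff_of_nonneg (fun _ _ => mul_self_nonneg _)] at h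
  funext k
  exact mul_self_eq_zero.1 (h k (Finset.mem_univ k))

theorem rd_self_pos {a : Fin n → ℝ} (h : a ≠ 0) : 0 < rd a a :=
  lt_of_le_of_ne (rd_self_nonneg a) fun h0 => h (rd_self_eq_zero h0.symm)

theorem rd_unit {a : Fin n → ℝ} (h : a ≠ 0) :
    rd ((Real.sqrt (rd a a))⁻¹ • a) ((Real.sqrt (rd a a))⁻¹ • a) = 1 := by
  rw [rd_smul_left, rd_smul_right]
  have h1 := rd_self_pos h
  have h2 : Real.sqrt (rd a a) * Real.sqrt (rd a a) = rd a a := Real.mul_self_sqrt h1.le
  have h3 : Real.sqrt (rd a a) ≠ 0 := (Real.sqrt_pos.2 h1).ne'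
  field_simp
  rw [pow_two, h2]

theorem real_orth (hn : 4 ≤ n) (a b c : Fin n → ℝ) :
    ∃ f : Fin n → ℝ, rd f f = 1 ∧ rd f a = 0 ∧ rd f b = 0 ∧ rd f c = 0 := by
  let L : (Fin n → ℝ) →ₗ[ℝ] (Fin 3 → ℝ) :=
    { toFun := fun f => ![rd f a, rd f b, rd f c]
      map_add' := by
        intro f g
        funext i
        fin_cases i <;> simp [rd, add_mul, Finset.sum_add_distrib]
      map_smul' := by
        intro r f
        funext i
        fin_cases i <;> simp [rd_smul_left] }
  have hker : LinearMap.ker L ≠ ⊥ := by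
    apply LinearMap.ker_ne_bot_of_finrank_lt
    simp only [Module.finrank_fin_fun]
    omega
  obtain ⟨f, hf, hf0⟩ := Submodule.exists_mem_ne_zero_of_ne_bot hker
  have hL : ![rd f a, rd f b, rd f c] = 0 := hf
  have h0 : rd f a = 0 := congrFun hL 0
  have h1 : rd f b = 0 := congrFun hL 1
  have h2 : rd f c = 0 := congrFun hL 2
  refine ⟨(Real.sqrt (rd f f))⁻¹ • f, rd_unit hf0, ?_, ?_, ?_⟩
  · rw [rd_smul_left, h0, mul_zero]
  · rw [rd_smul_left, h1, mul_zero]
  · rw [rd_smul_left, h2, mul_zero]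

theorem real_dir (hn : 4 ≤ n) (y a b c : Fin n → ℝ) (ha : rd y a = 0) (hb : rd y b = 0)
    (hc : rd y c = 0) : ∃ e : Fin n → ℝ, rd e e = 1 ∧ rd e a = 0 ∧ rd e b = 0 ∧ rd e c = 0 ∧
      y = Real.sqrt (rd y y) • e := by
  by_cases hy : y = 0
  · obtain ⟨f, h1, h2, h3, h4⟩ := real_orth hn a b c
    refine ⟨f, h1, h2, h3, h4, ?_⟩
    rw [hy]
    have : rd (0 : Fin n → ℝ) 0 = 0 := by simp [rd]
    rw [this, Real.sqrt_zero, zero_smul]
  · refine ⟨(Real.sqrt (rd y y))⁻¹ • y, rd_unit hy, ?_, ?_, ?_, ?_⟩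
    · rw [rd_smul_left, ha, mul_zero]
    · rw [rd_smul_left, hb, mul_zero]
    · rw [rd_smul_left, hc, mul_zero]
    · rw [smul_smul, mul_inv_cancel₀ (Real.sqrt_pos.2 (rd_self_pos hy)).ne', one_smul]

/-! ### complex vectors -/

/-- bilinear product -/
def bi (a b : Fin n → ℂ) : ℂ := ∑ k, a k * b k

/-- hermitian product -/
def he (a b : Fin n → ℂ) : ℂ := ∑ k, a k * star (b k)

theorem bi_comm (a b : Fin n → ℂ) : bi a b = bi b a := by
  unfold bi
  exact Finset.sum_congr rfl fun k _ => mul_comm _ _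

theorem bi_add_left (a b c : Fin n → ℂ) : bi (a + b) c = bi a c + bi b c := by
  simp [bi, add_mul, Finset.sum_add_distrib]

theorem bi_add_right (a b c : Fin n → ℂ) : bi a (b + c) = bi a b + bi a c := by
  simp [bi, mul_add, Finset.sum_add_distrib]

theorem bi_smul_left (r : ℂ) (a b : Fin n → ℂ) : bi (r • a) b = r * bi a b := by
  unfold bi
  rw [Finset.mul_sum]
  exact Finset.sum_congr rfl fun k _ => by simp [mul_assoc]

theorem bi_smul_right (r : ℂ) (a b : Fin n → ℂ) : bi a (r • b) = r * bi a b := by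
  rw [bi_comm, bi_smul_left, bi_comm]

theorem he_star (a b : Fin n → ℂ) : star (he a b) = he b a := by
  unfold he
  rw [star_sum]
  exact Finset.sum_congr rfl fun k _ => by simp [mul_comm]

theorem he_add_left (a b c : Fin n → ℂ) : he (a + b) c = he a c + he b c := by
  simp [he, add_mul, Finset.sum_add_distrib]

theorem he_add_right (a b c : Fin n → ℂ) : he a (b + c) = he a b + he a c := by
  simp [he, mul_add, Finset.sum_add_distrib]

theorem he_smul_left (r : ℂ) (a b : Fin n → ℂ) : he (r • a) b = r * he a b := by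
  unfold he
  rw [Finset.mul_sum]
  exact Finset.sum_congr rfl fun k _ => by simp [mul_assoc]

theorem he_smul_right (r : ℂ) (a b : Fin n → ℂ) : he a (r • b) = star r * he a b := by
  rw [← he_star, he_smul_left, star_mul', he_star]

theorem he_self (a : Fin n → ℂ) : he a a = ((∑ k, Complex.normSq (a k) : ℝ) : ℂ) := by
  unfold he
  push_cast
  exact Finset.sum_congr rfl fun k _ => Complex.mul_conj (a k)

theorem he_self_pos {a : Fin n → ℂ} (h : a ≠ 0) : 0 < ∑ k, Complex.normSq (a k) := by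
  refine lt_of_le_of_ne (Finset.sum_nonneg fun k _ => Complex.normSq_nonneg _) fun h0 => h ?_
  rw [eq_comm, Finset.sum_eq_zero_iff_of_nonneg (fun k _ => Complex.normSq_nonneg _)] at h0
  funext k
  exact Complex.normSq_eq_zero.1 (h0 k (Finset.mem_univ k))

theorem he_unit {a : Fin n → ℂ} (h : a ≠ 0) :
    ∃ r : ℂ, r ≠ 0 ∧ he (r⁻¹ • a) (r⁻¹ • a) = 1 := by
  have h1 := he_self_pos h
  refine ⟨((Real.sqrt (∑ k, Complex.normSq (a k)) : ℝ) : ℂ), ?_, ?_⟩
  · rw [Complex.ofReal_ne_zero]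
    exact (Real.sqrt_pos.2 h1).ne'
  · have h2 := Real.mul_self_sqrt h1.le
    have h3 : Real.sqrt (∑ k, Complex.normSq (a k)) ≠ 0 := (Real.sqrt_pos.2 h1).ne'
    rw [he_smul_left, he_smul_right, he_self]
    have h4 : star ((Real.sqrt (∑ k, Complex.normSq (a k)) : ℝ) : ℂ)⁻¹ =
        ((Real.sqrt (∑ k, Complex.normSq (a k)) : ℝ) : ℂ)⁻¹ := by
      rw [← Complex.ofReal_inv]
      exact Complex.conj_ofReal _
    rw [h4, ← Complex.ofReal_inv, ← Complex.ofReal_mul, ← Complex.ofReal_mul,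
      ← Complex.ofReal_one]
    congr 1
    field_simp
    rw [pow_two, h2]

theorem exists_unit (hn : 4 ≤ n) (v : Fin n → ℂ) : ∃ u : Fin n → ℂ, he u u = 1 ∧
    ∃ c : ℂ, v = c • u := by
  by_cases hv : v = 0
  · have hne : (fun _ => 1 : Fin n → ℂ) ≠ 0 := by
      intro h
      have := congrFun h ⟨0, by omega⟩
      simp at this
    obtain ⟨r, hr, hr1⟩ := he_unit hne
    exact ⟨_, hr1, 0, by rw [hv, zero_smul]⟩
  · obtain ⟨r, hr, hr1⟩ := he_unit hv
    exact ⟨_, hr1, r, by rw [smul_smul, mul_inv_cancel₀ hr, one_smul]⟩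

theorem exists_second (hn : 4 ≤ n) (u w : Fin n → ℂ) (hu : he u u = 1) :
    ∃ u2 : Fin n → ℂ, he u2 u2 = 1 ∧ he u2 u = 0 ∧ ∃ c d : ℂ, w = c • u + d • u2 := by
  by_cases hw : w + (-(he w u)) • u = 0
  · -- a kernel vector
    let L : (Fin n → ℂ) →ₗ[ℂ] ℂ :=
      { toFun := fun f => he f u
        map_add' := fun f g => he_add_left f g u
        map_smul' := fun r f => he_smul_left r f u }
    have hker : LinearMap.ker L ≠ ⊥ := by
      apply LinearMap.ker_ne_bot_of_finrank_lt
      simp only [Module.finrank_fin_fun, Module.finrank_self]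
      omega
    obtain ⟨f, hf, hf0⟩ := Submodule.exists_mem_ne_zero_of_ne_bot hker
    have hL : he f u = 0 := hf
    obtain ⟨r, hr, hr1⟩ := he_unit hf0
    refine ⟨_, hr1, ?_, he w u, 0, ?_⟩
    · rw [he_smul_left, hL, mul_zero]
    · rw [zero_smul, add_zero]
      have : w = w + (-(he w u)) • u + (he w u) • u := by
        rw [add_assoc, ← add_smul, neg_add_cancel, zero_smul, add_zero]
      rw [hw, zero_add] at this
      exact this
  · obtain ⟨r, hr, hr1⟩ := he_unit hw
    refine ⟨_, hr1, ?_, he w u, r, ?_⟩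
    · rw [he_smul_left, he_add_left, he_smul_left, hu]
      ring
    · rw [smul_smul, mul_inv_cancel₀ hr, one_smul, neg_smul]
      abel

/-- phases -/
theorem exists_phase (c : ℂ) : ∃ e : ℂ, e * star e = 1 ∧ e * (e * c) = ((‖c‖ : ℝ) : ℂ) := by
  refine ⟨Complex.exp (((-(Complex.arg c / 2) : ℝ) : ℂ) * Complex.I), ?_, ?_⟩
  · have h1 := Complex.norm_exp_ofReal_mul_I (-(Complex.arg c / 2))
    have h2 := Complex.mul_conj (Complex.exp (((-(Complex.arg c / 2) : ℝ) : ℂ) * Complex.I))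
    rw [Complex.normSq_eq_norm_sq, h1] at h2
    simpa using h2
  · have h := Complex.norm_mul_exp_arg_mul_I c
    have h0 : ((-(Complex.arg c / 2) : ℝ) : ℂ) * Complex.I + ((-(Complex.arg c / 2) : ℝ) : ℂ) *
        Complex.I + (Complex.arg c : ℂ) * Complex.I = 0 := by
      push_cast
      ring
    calc Complex.exp (((-(Complex.arg c / 2) : ℝ) : ℂ) * Complex.I) *
          (Complex.exp (((-(Complex.arg c / 2) : ℝ) : ℂ) * Complex.I) * c)
        = Complex.exp (((-(Complex.arg c / 2) : ℝ) : ℂ) * Complex.I) *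
          (Complex.exp (((-(Complex.arg c / 2) : ℝ) : ℂ) * Complex.I) *
            (((‖c‖ : ℝ) : ℂ) * Complex.exp ((Complex.arg c : ℂ) * Complex.I))) := by rw [h]
      _ = ((‖c‖ : ℝ) : ℂ) * (Complex.exp (((-(Complex.arg c / 2) : ℝ) : ℂ) * Complex.I) *
          Complex.exp (((-(Complex.arg c / 2) : ℝ) : ℂ) * Complex.I) *
            Complex.exp ((Complex.arg c : ℂ) * Complex.I)) := by ring
      _ = ((‖c‖ : ℝ) : ℂ) := by
          rw [← Complex.exp_add, ← Complex.exp_add, h0, Complex.exp_zero, mul_one]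

/-- the maximum of a quadratic form on the unit sphere of `ℂ²` -/
theorem exists_max (S11 S12 S22 : ℂ) : ∃ a b : ℂ, a * star a + b * star b = 1 ∧
    a * (-star b) * S11 + (a * star a - b * star b) * S12 + b * star a * S22 = 0 := by
  let K : Set (ℂ × ℂ) := {p | Complex.normSq p.1 + Complex.normSq p.2 = 1}
  let F : ℂ × ℂ → ℝ := fun p => (p.1 * p.1 * S11 + 2 * (p.1 * p.2) * S12 + p.2 * p.2 * S22).re
  have hcn : Continuous (fun p : ℂ × ℂ => Complex.normSq p.1 + Complex.normSq p.2) :=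
    (Complex.continuous_normSq.comp continuous_fst).add
      (Complex.continuous_normSq.comp continuous_snd)
  have hK : IsCompact K := by
    apply Metric.isCompact_of_isClosed_isBounded
    · exact isClosed_eq hcn continuous_const
    · apply (Metric.isBounded_closedBall (x := (0 : ℂ × ℂ)) (r := 1)).subset
      intro p hp
      have hp' : Complex.normSq p.1 + Complex.normSq p.2 = 1 := hp
      rw [mem_closedBall_zero_iff, Prod.norm_def]
      have h1 := Complex.normSq_nonneg p.1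
      have h2 := Complex.normSq_nonneg p.2
      rw [Complex.normSq_eq_norm_sq] at h1 h2 hp'
      rw [Complex.normSq_eq_norm_sq] at hp'
      refine max_le ?_ ?_
      · nlinarith [norm_nonneg p.1]
      · nlinarith [norm_nonneg p.2]
  have hne : K.Nonempty := ⟨(1, 0), by simp [K]⟩
  have hF : Continuous F := by
    refine Complex.continuous_re.comp ?_
    fun_prop
  obtain ⟨⟨a, b⟩, hab, hmax⟩ := hK.exists_isMaxOn hne hF.continuousOn
  have hab' : Complex.normSq a + Complex.normSq b = 1 := hab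
  have hunit : a * star a + b * star b = 1 := by
    have h1 : a * star a = ((Complex.normSq a : ℝ) : ℂ) := Complex.mul_conj a
    have h2 : b * star b = ((Complex.normSq b : ℝ) : ℂ) := Complex.mul_conj b
    rw [h1, h2, ← Complex.ofReal_add, hab', Complex.ofReal_one]
  refine ⟨a, b, hunit, ?_⟩
  -- homogeneity: `F p ≤ F (a,b) * |p|²`
  have hhom : ∀ p : ℂ × ℂ, F p ≤ F (a, b) * (Complex.normSq p.1 + Complex.normSq p.2) := by
    intro p
    have h0 : 0 ≤ Complex.normSq p.1 + Complex.normSq p.2 :=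
      add_nonneg (Complex.normSq_nonneg _) (Complex.normSq_nonneg _)
    rcases h0.eq_or_lt with h | h
    · have h1 : Complex.normSq p.1 = 0 := by
        have := Complex.normSq_nonneg p.1
        have := Complex.normSq_nonneg p.2
        linarith
      have h2 : Complex.normSq p.2 = 0 := by
        have := Complex.normSq_nonneg p.2
        linarith
      rw [Complex.normSq_eq_zero] at h1 h2
      rw [← h, mul_zero]
      simp [F, h1, h2]
    · obtain ⟨r, hr⟩ : ∃ r : ℝ, r = Real.sqrt (Complex.normSq p.1 + Complex.normSq p.2) := ⟨_, rfl⟩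
      have hr0 : 0 < r := by rw [hr]; exact Real.sqrt_pos.2 h
      have hr2 : r * r = Complex.normSq p.1 + Complex.normSq p.2 := by
        rw [hr]; exact Real.mul_self_sqrt h.le
      have hq : ((((r⁻¹ : ℝ) : ℂ) * p.1, ((r⁻¹ : ℝ) : ℂ) * p.2) : ℂ × ℂ) ∈ K := by
        show Complex.normSq (((r⁻¹ : ℝ) : ℂ) * p.1) + Complex.normSq (((r⁻¹ : ℝ) : ℂ) * p.2) = 1
        rw [Complex.normSq_mul, Complex.normSq_mul, Complex.normSq_ofReal, ← mul_add, ← hr2]
        field_simp
      have h3 : F (((r⁻¹ : ℝ) : ℂ) * p.1, ((r⁻¹ : ℝ) : ℂ) * p.2) ≤ F (a, b) := hmax hq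
      have h4 : F (((r⁻¹ : ℝ) : ℂ) * p.1, ((r⁻¹ : ℝ) : ℂ) * p.2) = r⁻¹ * r⁻¹ * F p := by
        show (((r⁻¹ : ℝ) : ℂ) * p.1 * (((r⁻¹ : ℝ) : ℂ) * p.1) * S11 +
          2 * (((r⁻¹ : ℝ) : ℂ) * p.1 * (((r⁻¹ : ℝ) : ℂ) * p.2)) * S12 +
          ((r⁻¹ : ℝ) : ℂ) * p.2 * (((r⁻¹ : ℝ) : ℂ) * p.2) * S22).re = _
        have h5 : ((r⁻¹ : ℝ) : ℂ) * p.1 * (((r⁻¹ : ℝ) : ℂ) * p.1) * S11 +
          2 * (((r⁻¹ : ℝ) : ℂ) * p.1 * (((r⁻¹ : ℝ) : ℂ) * p.2)) * S12 +
          ((r⁻¹ : ℝ) : ℂ) * p.2 * (((r⁻¹ : ℝ) : ℂ) * p.2) * S22 =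
          ((r⁻¹ * r⁻¹ : ℝ) : ℂ) * (p.1 * p.1 * S11 + 2 * (p.1 * p.2) * S12 + p.2 * p.2 * S22) := by
          push_cast
          ring
        rw [h5, Complex.re_ofReal_mul]
      rw [h4] at h3
      rw [← hr2]
      have h6 : F p = r * r * (r⁻¹ * r⁻¹ * F p) := by field_simp
      calc F p = r * r * (r⁻¹ * r⁻¹ * F p) := h6
        _ ≤ r * r * F (a, b) := mul_le_mul_of_nonneg_left h3 (by positivity)
        _ = F (a, b) * (r * r) := by ring
  set m : ℂ := a * (-star b) * S11 + (a * star a - b * star b) * S12 + b * star a * S22 with hm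
  set q : ℂ := star m * star m * (star b * star b * S11 - 2 * (star a * star b) * S12 +
    star a * star a * S22) with hq
  -- the variation
  have hvar : ∀ t : ℝ, 2 * t * Complex.normSq m + t ^ 2 * q.re ≤
      t ^ 2 * (F (a, b) * Complex.normSq m) := by
    intro t
    have h1 := hhom (a - t * star m * star b, b + t * star m * star a)
    have h2 : F (a - t * star m * star b, b + t * star m * star a) =
        F (a, b) + 2 * t * Complex.normSq m + t ^ 2 * q.re := by
      show ((a - t * star m * star b) * (a - t * star m * star b) * S11 +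
        2 * ((a - t * star m * star b) * (b + t * star m * star a)) * S12 +
        (b + t * star m * star a) * (b + t * star m * star a) * S22).re = _
      have h3 : (a - t * star m * star b) * (a - t * star m * star b) * S11 +
        2 * ((a - t * star m * star b) * (b + t * star m * star a)) * S12 +
        (b + t * star m * star a) * (b + t * star m * star a) * S22 =
        (a * a * S11 + 2 * (a * b) * S12 + b * b * S22) + ((2 * t : ℝ) : ℂ) * (m * star m) +
          ((t ^ 2 : ℝ) : ℂ) * q := by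
        rw [hq, hm]
        push_cast
        ring
      have h4 : m * star m = ((Complex.normSq m : ℝ) : ℂ) := Complex.mul_conj m
      rw [h3, h4, Complex.add_re, Complex.add_re, Complex.re_ofReal_mul, Complex.re_ofReal_mul,
        Complex.ofReal_re]
    have h5 : Complex.normSq (a - t * star m * star b) + Complex.normSq (b + t * star m * star a) =
        1 + t ^ 2 * Complex.normSq m := by
      have h6 : ((Complex.normSq (a - t * star m * star b) +
          Complex.normSq (b + t * star m * star a) : ℝ) : ℂ) =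
          ((1 + t ^ 2 * Complex.normSq m : ℝ) : ℂ) := by
        push_cast
        rw [← Complex.mul_conj, ← Complex.mul_conj, ← Complex.mul_conj]
        have hc1 : (starRingEnd ℂ) (a - t * star m * star b) = star a - t * m * b := by
          simp
        have hc2 : (starRingEnd ℂ) (b + t * star m * star a) = star b + t * m * a := by
          simp
        have hc3 : (starRingEnd ℂ) m = star m := rfl
        rw [hc1, hc2, hc3]
        linear_combination (1 + (t : ℂ) ^ 2 * (m * star m)) * hunit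
      exact_mod_cast h6
    rw [h2] at h1
    simp only at h1
    rw [h5] at h1
    nlinarith [h1]
  by_contra hne0
  have hpos : 0 < Complex.normSq m := Complex.normSq_pos.2 hne0
  set Cc : ℝ := F (a, b) * Complex.normSq m - q.re with hCc
  have hv2 : ∀ t : ℝ, 2 * t * Complex.normSq m ≤ t ^ 2 * Cc := by
    intro t
    have := hvar t
    rw [hCc]
    nlinarith
  obtain ⟨t, ht⟩ : ∃ t : ℝ, t = Complex.normSq m / (|Cc| + 1) := ⟨_, rfl⟩
  have hd : 0 < |Cc| + 1 := by positivity
  have ht0 : 0 < t := by rw [ht]; positivity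
  have h7 := hv2 t
  have h8 : t * (|Cc| + 1) = Complex.normSq m := by
    rw [ht]
    field_simp
  have h9 : t ^ 2 * Cc ≤ t * Complex.normSq m := by
    have : Cc ≤ |Cc| + 1 := (le_abs_self Cc).trans (by linarith)
    calc t ^ 2 * Cc ≤ t ^ 2 * (|Cc| + 1) := mul_le_mul_of_nonneg_left this (by positivity)
      _ = t * (t * (|Cc| + 1)) := by ring
      _ = t * Complex.normSq m := by rw [h8]
  nlinarith [mul_pos ht0 hpos]

theorem bi_re_im (z w : Fin n → ℂ) :
    (bi z w).re = rd (fun k => (z k).re) (fun k => (w k).re) -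
      rd (fun k => (z k).im) (fun k => (w k).im) ∧
    (bi z w).im = rd (fun k => (z k).re) (fun k => (w k).im) +
      rd (fun k => (z k).im) (fun k => (w k).re) := by
  constructor
  · simp only [bi, rd, Complex.re_sum, Complex.mul_re, Finset.sum_sub_distrib]
  · simp only [bi, rd, Complex.im_sum, Complex.mul_im, Finset.sum_add_distrib]

theorem he_re_im (z w : Fin n → ℂ) :
    (he z w).re = rd (fun k => (z k).re) (fun k => (w k).re) +
      rd (fun k => (z k).im) (fun k => (w k).im) ∧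
    (he z w).im = rd (fun k => (z k).im) (fun k => (w k).re) -
      rd (fun k => (z k).re) (fun k => (w k).im) := by
  constructor
  · simp only [he, rd, Complex.re_sum]
    rw [← Finset.sum_add_distrib]
    refine Finset.sum_congr rfl fun k _ => ?_
    simp [Complex.mul_re]
  · simp only [he, rd, Complex.im_sum]
    rw [← Finset.sum_sub_distrib]
    refine Finset.sum_congr rfl fun k _ => ?_
    simp [Complex.mul_im]
    ring

theorem frame_of (hn : 4 ≤ n) (z w : Fin n → ℂ) (hz : he z z = 1) (hw : he w w = 1)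
    (hzw : he z w = 0) (s r : ℝ) (hs : 0 ≤ s) (hr : 0 ≤ r) (hzz : bi z z = (s : ℂ))
    (hww : bi w w = (r : ℂ)) (hb : bi z w = 0) :
    ∃ (e : Fin 4 → Fin n → ℝ) (lm mu : ℝ) (A B : ℂ),
      (∀ i j, ∑ k, e i k * e j k = if i = j then 1 else 0) ∧ |lm| ≤ 1 ∧ |mu| ≤ 1 ∧
      (∀ k, z k = A * ((e 0 k : ℂ) + Complex.I * lm * e 1 k)) ∧
      (∀ k, w k = B * ((e 2 k : ℂ) + Complex.I * mu * e 3 k)) := by
  obtain ⟨x, hx⟩ : ∃ x : Fin n → ℝ, x = fun k => (z k).re := ⟨_, rfl⟩
  obtain ⟨y, hy⟩ : ∃ y : Fin n → ℝ, y = fun k => (z k).im := ⟨_, rfl⟩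
  obtain ⟨u, hu⟩ : ∃ u : Fin n → ℝ, u = fun k => (w k).re := ⟨_, rfl⟩
  obtain ⟨v, hv⟩ : ∃ v : Fin n → ℝ, v = fun k => (w k).im := ⟨_, rfl⟩
  have a1 := (he_re_im z z).1
  have a2 := (he_re_im w w).1
  have a3 := (he_re_im z w).1
  have a4 := (he_re_im z w).2
  have b1 := (bi_re_im z z).1
  have b2 := (bi_re_im z z).2
  have b3 := (bi_re_im w w).1
  have b4 := (bi_re_im w w).2
  have b5 := (bi_re_im z w).1
  have b6 := (bi_re_im z w).2
  rw [hz] at a1
  rw [hw] at a2
  rw [hzw] at a3 a4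
  rw [hzz] at b1 b2
  rw [hww] at b3 b4
  rw [hb] at b5 b6
  simp only [← hx, ← hy, ← hu, ← hv, Complex.one_re, Complex.zero_re, Complex.zero_im,
    Complex.ofReal_re, Complex.ofReal_im] at a1 a2 a3 a4 b1 b2 b3 b4 b5 b6
  have cyx : rd y x = rd x y := rd_comm y x
  have cvu : rd v u = rd u v := rd_comm v u
  have hxy : rd x y = 0 := by linarith
  have huv : rd u v = 0 := by linarith
  have hxu : rd x u = 0 := by linarith
  have hyv : rd y v = 0 := by linarith
  have hxv : rd x v = 0 := by linarith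
  have hyu : rd y u = 0 := by linarith
  have hx2 : 0 < rd x x := by linarith
  have hu2 : 0 < rd u u := by linarith
  have hx0 : x ≠ 0 := by
    intro h
    rw [h] at hx2
    simp [rd] at hx2
  have hu0 : u ≠ 0 := by
    intro h
    rw [h] at hu2
    simp [rd] at hu2
  obtain ⟨e1, h11, h1x, h1u, h1v, hye⟩ := real_dir hn y x u v (by rw [cyx]; exact hxy) hyu hyv
  obtain ⟨e3, h33, h3x, h3u, h31, hve⟩ := real_dir hn v x u e1
    (by rw [rd_comm]; exact hxv) (by rw [cvu]; exact huv) (by rw [rd_comm]; exact h1v)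
  obtain ⟨X, hX⟩ : ∃ X : ℝ, X = Real.sqrt (rd x x) := ⟨_, rfl⟩
  obtain ⟨U, hU⟩ : ∃ U : ℝ, U = Real.sqrt (rd u u) := ⟨_, rfl⟩
  obtain ⟨Y, hY⟩ : ∃ Y : ℝ, Y = Real.sqrt (rd y y) := ⟨_, rfl⟩
  obtain ⟨V, hV⟩ : ∃ V : ℝ, V = Real.sqrt (rd v v) := ⟨_, rfl⟩
  have hXp : 0 < X := by rw [hX]; exact Real.sqrt_pos.2 hx2
  have hUp : 0 < U := by rw [hU]; exact Real.sqrt_pos.2 hu2
  have hYX : Y ≤ X := by rw [hX, hY]; exact Real.sqrt_le_sqrt (by linarith)
  have hVU : V ≤ U := by rw [hU, hV]; exact Real.sqrt_le_sqrt (by linarith)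
  have hY0 : 0 ≤ Y := by rw [hY]; exact Real.sqrt_nonneg _
  have hV0 : 0 ≤ V := by rw [hV]; exact Real.sqrt_nonneg _
  rw [← hY] at hye
  rw [← hV] at hve
  have k00 : rd (X⁻¹ • x) (X⁻¹ • x) = 1 := by rw [hX]; exact rd_unit hx0
  have k22 : rd (U⁻¹ • u) (U⁻¹ • u) = 1 := by rw [hU]; exact rd_unit hu0
  have k01 : rd (X⁻¹ • x) e1 = 0 := by rw [rd_smul_left, rd_comm, h1x, mul_zero]
  have k02 : rd (X⁻¹ • x) (U⁻¹ • u) = 0 := by rw [rd_smul_left, rd_smul_right, hxu]; ring
  have k03 : rd (X⁻¹ • x) e3 = 0 := by rw [rd_smul_left, rd_comm, h3x, mul_zero]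
  have k12 : rd e1 (U⁻¹ • u) = 0 := by rw [rd_smul_right, h1u, mul_zero]
  have k13 : rd e1 e3 = 0 := by rw [rd_comm]; exact h31
  have k23 : rd (U⁻¹ • u) e3 = 0 := by rw [rd_smul_left, rd_comm, h3u, mul_zero]
  have k10 : rd e1 (X⁻¹ • x) = 0 := by rw [rd_comm]; exact k01
  have k20 : rd (U⁻¹ • u) (X⁻¹ • x) = 0 := by rw [rd_comm]; exact k02
  have k30 : rd e3 (X⁻¹ • x) = 0 := by rw [rd_comm]; exact k03
  have k21 : rd (U⁻¹ • u) e1 = 0 := by rw [rd_comm]; exact k12
  have k32 : rd e3 (U⁻¹ • u) = 0 := by rw [rd_comm]; exact k23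
  refine ⟨![X⁻¹ • x, e1, U⁻¹ • u, e3], Y / X, V / U, (X : ℂ), (U : ℂ), ?_, ?_, ?_, ?_, ?_⟩
  · intro i j
    have hrd : ∀ a b : Fin n → ℝ, ∑ k, a k * b k = rd a b := fun a b => rfl
    fin_cases i <;> fin_cases j
    · exact k00
    · exact k01
    · exact k02
    · exact k03
    · exact k10
    · exact h11
    · exact k12
    · exact k13
    · exact k20
    · exact k21
    · exact k22
    · exact k23
    · exact k30
    · exact h31
    · exact k32
    · exact h33
  · rw [abs_of_nonneg (by positivity)]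
    exact (div_le_one hXp).2 hYX
  · rw [abs_of_nonneg (by positivity)]
    exact (div_le_one hUp).2 hVU
  · intro k
    have h1 : z k = (x k : ℂ) + (y k : ℂ) * Complex.I := by
      rw [hx, hy]
      exact (Complex.re_add_im (z k)).symm
    have h2 : y k = Y * e1 k := by
      conv_lhs => rw [hye]
      rfl
    have hXc : (X : ℂ) ≠ 0 := by exact_mod_cast hXp.ne'
    show z k = (X : ℂ) * (((X⁻¹ * x k : ℝ) : ℂ) + Complex.I * ((Y / X : ℝ) : ℂ) * ((e1 k : ℝ) : ℂ))
    rw [h1, h2]
    push_cast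
    field_simp
  · intro k
    have h1 : w k = (u k : ℂ) + (v k : ℂ) * Complex.I := by
      rw [hu, hv]
      exact (Complex.re_add_im (w k)).symm
    have h2 : v k = V * e3 k := by
      conv_lhs => rw [hve]
      rfl
    have hUc : (U : ℂ) ≠ 0 := by exact_mod_cast hUp.ne'
    show w k = (U : ℂ) * (((U⁻¹ * u k : ℝ) : ℂ) + Complex.I * ((V / U : ℝ) : ℂ) * ((e3 k : ℝ) : ℂ))
    rw [h1, h2]
    push_cast
    field_simp

/-- Normal form of complex planes (the hypothesis of linear independence is not needed). -/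
theorem normal_form (hn : 4 ≤ n) (z w : Fin n → ℂ) :
    ∃ (e : Fin 4 → Fin n → ℝ) (lm mu : ℝ) (α β γ δ : ℂ),
      (∀ i j, ∑ k, e i k * e j k = if i = j then 1 else 0) ∧ |lm| ≤ 1 ∧ |mu| ≤ 1 ∧
      (∀ k, z k = α * ((e 0 k : ℂ) + Complex.I * lm * e 1 k) +
        β * ((e 2 k : ℂ) + Complex.I * mu * e 3 k)) ∧
      (∀ k, w k = γ * ((e 0 k : ℂ) + Complex.I * lm * e 1 k) +
        δ * ((e 2 k : ℂ) + Complex.I * mu * e 3 k)) := by
  obtain ⟨u1, hu1, cz, hzc⟩ := exists_unit hn z
  obtain ⟨u2, hu2, hu21, cw, dw, hwc⟩ := exists_second hn u1 w hu1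
  have hu12 : he u1 u2 = 0 := by rw [← he_star, hu21, star_zero]
  obtain ⟨a, b, hab, hm⟩ := exists_max (bi u1 u1) (bi u1 u2) (bi u2 u2)
  obtain ⟨z0, hz0⟩ : ∃ z0 : Fin n → ℂ, z0 = a • u1 + b • u2 := ⟨_, rfl⟩
  obtain ⟨w0, hw0⟩ : ∃ w0 : Fin n → ℂ, w0 = (-star b) • u1 + (star a) • u2 := ⟨_, rfl⟩
  have e1 : he z0 z0 = 1 := by
    rw [hz0]
    simp only [he_add_left, he_add_right, he_smul_left, he_smul_right, hu1, hu2, hu12, hu21]
    linear_combination hab
  have e2 : he w0 w0 = 1 := by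
    rw [hw0]
    simp only [he_add_left, he_add_right, he_smul_left, he_smul_right, hu1, hu2, hu12, hu21,
      star_neg, star_star]
    linear_combination hab
  have e3 : he z0 w0 = 0 := by
    rw [hz0, hw0]
    simp only [he_add_left, he_add_right, he_smul_left, he_smul_right, hu1, hu2, hu12, hu21,
      star_neg, star_star]
    ring
  have e4 : bi z0 w0 = 0 := by
    rw [hz0, hw0]
    simp only [bi_add_left, bi_add_right, bi_smul_left, bi_smul_right]
    rw [bi_comm u2 u1]
    linear_combination hm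
  obtain ⟨p, hp, hps⟩ := exists_phase (bi z0 z0)
  obtain ⟨q, hq, hqs⟩ := exists_phase (bi w0 w0)
  obtain ⟨e, lm, mu, A, B, h1, h2, h3, h4, h5⟩ := frame_of hn (p • z0) (q • w0)
    (by rw [he_smul_left, he_smul_right, e1]; linear_combination hp)
    (by rw [he_smul_left, he_smul_right, e2]; linear_combination hq)
    (by rw [he_smul_left, he_smul_right, e3]; ring)
    ‖bi z0 z0‖ ‖bi w0 w0‖ (norm_nonneg _) (norm_nonneg _)
    (by rw [bi_smul_left, bi_smul_right]; exact hps)
    (by rw [bi_smul_left, bi_smul_right]; exact hqs)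
    (by rw [bi_smul_left, bi_smul_right, e4]; ring)
  have hz1 : ∀ k, z0 k = star p * A * ((e 0 k : ℂ) + Complex.I * lm * e 1 k) := by
    intro k
    have h6 : p * z0 k = A * ((e 0 k : ℂ) + Complex.I * lm * e 1 k) := h4 k
    linear_combination (-(z0 k)) * hp + star p * h6
  have hw1 : ∀ k, w0 k = star q * B * ((e 2 k : ℂ) + Complex.I * mu * e 3 k) := by
    intro k
    have h6 : q * w0 k = B * ((e 2 k : ℂ) + Complex.I * mu * e 3 k) := h5 k
    linear_combination (-(w0 k)) * hq + star q * h6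
  have hk1 : ∀ k, u1 k = star a * z0 k - b * w0 k := by
    intro k
    have h6 : z0 k = a * u1 k + b * u2 k := by rw [hz0]; rfl
    have h7 : w0 k = -star b * u1 k + star a * u2 k := by rw [hw0]; rfl
    rw [h6, h7]
    linear_combination (-(u1 k)) * hab
  have hk2 : ∀ k, u2 k = star b * z0 k + a * w0 k := by
    intro k
    have h6 : z0 k = a * u1 k + b * u2 k := by rw [hz0]; rfl
    have h7 : w0 k = -star b * u1 k + star a * u2 k := by rw [hw0]; rfl
    rw [h6, h7]
    linear_combination (-(u2 k)) * hab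
  refine ⟨e, lm, mu, cz * star a * (star p * A), -(cz * b * (star q * B)),
    (cw * star a + dw * star b) * (star p * A), (-(cw * b) + dw * a) * (star q * B), h1, h2, h3,
    ?_, ?_⟩
  · intro k
    have h6 : z k = cz * u1 k := by rw [hzc]; rfl
    rw [h6, hk1, hz1, hw1]
    ring
  · intro k
    have h6 : w k = cw * u1 k + dw * u2 k := by rw [hwc]; rfl
    rw [h6, hk1, hk2, hz1, hw1]
    ring

theorem goal_NF : Goal_NF := fun _ hn z w _ => normal_form hn z w

end Pool.Agent.Helper97.RFn
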