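import Pool.Agent.Helper64.RFn.GoalsV

/-!
# Project RFn, packet QCTn: the maximum of `λ` is attained and continuous in time
-/

open MeasureTheory Set Matrix

namespace Pool.Agent.Helper97.RFn

open Pool.Agent.Helper47.RFn Pool.Agent.Helper73.RFn Pool.Agent.Helper64.RFn

section

variable {n : ℕ} {I : Set ℝ} {A θ : ℝ → MF n}

/-- all the functions of the frame are smooth families -/
lemma lam_fam (h8 : Goal_C8) (hF : FFlow I A θ) : SmFam I (fun t x => lamf (A t) (θ t) x) := by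
  obtain ⟨c1, c2, c3, c4, c5, c6, -, c8, c9, -⟩ := h8 n I
  have hA : ∀ a i, SmFam I (fun t x => A t x a i) := fun a i => (hF.flA a i).fam
  have hθ : ∀ i a, SmFam I (fun t x => θ t x i a) := fun i a => (hF.flt i a).fam
  have hconst : ∀ c : ℝ, SmFam I (fun _ (_ : EE n) => c) := fun c =>
    c1 (fun _ => c) continuousOn_const
  have hFd : ∀ a (f : ℝ → EE n → ℝ), SmFam I f → SmFam I (fun t x => Fdc (A t) a (f t) x) := by
    intro a f hf
    exact c8 (Fin (n + 1)) Finset.univ (fun i t x => A t x a i * ed i (f t) x)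
      (fun i _ => c4 _ _ (hA a i) (c6 f i hf))
  have hnf : ∀ a, SmFam I (fun t x => nfc (A t) a x) := by
    intro a
    exact c8 (Fin (n + 1)) Finset.univ (fun i t x => A t x a i * nn i x)
      (fun i _ => c4 _ _ (hA a i) (c9 i))
  have hC : ∀ a b c, SmFam I (fun t x => Cc (A t) (θ t) a b c x) := by
    intro a b c
    refine c2 _ _ ?_ (c3 _ _ (c4 _ _ (hnf a) (hconst _)) (c4 _ _ (hnf b) (hconst _)))
    exact c8 (Fin (n + 1)) Finset.univ (fun j t x => (Fdc (A t) a (fun y => A t y b j) x -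
      Fdc (A t) b (fun y => A t y a j) x) * θ t x j c)
      (fun j _ => c4 _ _ (c3 _ _ (hFd a _ (hA b j)) (hFd b _ (hA a j))) (hθ j c))
  have hG : ∀ a b c, SmFam I (fun t x => Gamc (A t) (θ t) a b c x) := by
    intro a b c
    exact c4 _ _ (hconst (1 / 2)) (c2 _ _ (c3 _ _ (hC a b c) (hC b c a)) (hC c a b))
  have hK : ∀ a b c d, SmFam I (fun t x => Kf (A t) (θ t) a b c d x) := by
    intro a b c d
    refine c3 _ _ (c2 _ _ (c3 _ _ (hFd a _ (hG b c d)) (hFd b _ (hG a c d))) ?_) ?_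
    · exact c8 (Fin (n + 1)) Finset.univ (fun f t x => Gamc (A t) (θ t) b c f x *
        Gamc (A t) (θ t) a f d x - Gamc (A t) (θ t) a c f x * Gamc (A t) (θ t) b f d x)
        (fun f _ => c3 _ _ (c4 _ _ (hG b c f) (hG a f d)) (c4 _ _ (hG a c f) (hG b f d)))
    · exact c8 (Fin (n + 1)) Finset.univ (fun f t x => Cc (A t) (θ t) a b f x *
        Gamc (A t) (θ t) f c d x) (fun f _ => c4 _ _ (hC a b f) (hG f c d))
  have hR : ∀ a c, SmFam I (fun t x => Rcf (A t) (θ t) a c x) := by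
    intro a c
    exact c8 (Fin (n + 1)) Finset.univ (fun b t x => Rf (A t) (θ t) a b c b x)
      (fun b _ => c5 _ (hK a b c b))
  exact c4 _ _ (hconst (1 / (n : ℝ))) (c8 (Fin (n + 1)) Finset.univ
    (fun a t x => Rcf (A t) (θ t) a a x) (fun a _ => hR a a))

end

/-- The maximum over the sphere of a smooth family. -/
theorem max_fam {n : ℕ} {I : Set ℝ} {f : ℝ → EE n → ℝ} (hf : SmFam I f) :
    ∃ Q : ℝ → ℝ, ContinuousOn Q I ∧ ∀ t ∈ I, (∀ x, x ≠ 0 → f t x ≤ Q t) ∧
      ∃ p, p ≠ 0 ∧ f t p = Q t := by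
  let S : Set (EE n) := Metric.sphere (0 : EE n) 1
  have hSne : ∀ x : S, (x : EE n) ≠ 0 := fun x => by
    have := x.2
    intro h0
    rw [mem_sphere_zero_iff_norm, h0, norm_zero] at this
    exact zero_ne_one this
  have hScompact : CompactSpace S := isCompact_iff_compactSpace.1 (isCompact_sphere _ _)
  have hSnonempty : Nonempty S := by
    refine ⟨⟨EuclideanSpace.single 0 1, ?_⟩⟩
    rw [mem_sphere_zero_iff_norm]
    simp
  have hc0 := hf.cont []
  have hc : Continuous (Function.uncurry fun (t : I) (x : S) => f t x) := by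
    have h1 : ContinuousOn (fun p : ℝ × EE n => f p.1 p.2) (I ×ˢ {0}ᶜ) := hc0
    have h2 : Continuous (fun q : I × S => ((q.1 : ℝ), (q.2 : EE n))) := by fun_prop
    exact h1.comp_continuous h2 (fun q => ⟨q.1.2, hSne q.2⟩)
  refine ⟨fun t => sSup ((fun x : S => f t x) '' univ), ?_, ?_⟩
  · rw [continuousOn_iff_continuous_restrict]
    exact isCompact_univ.continuous_sSup hc
  · intro t ht
    have hct : Continuous (fun x : S => f t x) :=
      hc.comp (f := fun x : S => ((⟨t, ht⟩ : I), x)) (by fun_prop)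
    have hcomp : IsCompact ((fun x : S => f t x) '' univ) := isCompact_univ.image hct
    refine ⟨?_, ?_⟩
    · intro x hx
      have hn : 0 < ‖x‖ := norm_pos_iff.2 hx
      have hmem : (‖x‖⁻¹ • x) ∈ S := by
        rw [mem_sphere_zero_iff_norm, norm_smul, norm_inv, norm_norm, inv_mul_cancel₀ hn.ne']
      have h1 : f t (‖x‖⁻¹ • x) = f t x := (hf.sm t ht).hom _ x (inv_pos.2 hn)
      rw [← h1]
      exact le_csSup hcomp.bddAbove ⟨⟨_, hmem⟩, mem_univ _, rfl⟩
    · obtain ⟨y, -, hy⟩ := hcomp.sSup_mem ⟨_, ⟨hSnonempty.some, mem_univ _, rfl⟩⟩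
      exact ⟨y, hSne y, hy⟩

/-- **QCTn.** -/
theorem qctn (h8 : Goal_C8) : Pool.Agent.Helper64.RFn.QCTn := by
  intro n T A θ _ hF
  obtain ⟨Q, h1, h2⟩ := max_fam (lam_fam h8 hF)
  exact ⟨Q, h1, fun t h0 hT => h2 t ⟨h0, hT⟩⟩

end Pool.Agent.Helper97.RFn
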